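import Mathlib
import Pool.Agent.Lib.helper6.Ck

set_option autoImplicit false

namespace Pool.Agent.Results.MP_a55298_gt.NoUniversal

open Set Topology Filter TopologicalSpace Pool.Agent.Lib.helper6.Ck

/-- the class of spaces embeddable into `C_k(X,Y)` with `X`, `Y` separable metrizable -/
def CM0 (U : Type) [TopologicalSpace U] : Prop :=
  ∃ (X Y : Type) (_ : TopologicalSpace X) (_ : TopologicalSpace Y), MetrizableSpace X ∧
    SeparableSpace X ∧ MetrizableSpace Y ∧ SeparableSpace Y ∧ ∃ e : U → C(X, Y), IsEmbedding e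

theorem result (U : Type) [TopologicalSpace U] (hU : CM0 U) :
    ∃ (Z : Type) (_ : TopologicalSpace Z), CM0 Z ∧ ¬ ∃ e : Z → U, IsEmbedding e := by
  obtain ⟨X, Y, _, _, _, _, _, _, e, he⟩ := hU
  by_contra H
  push Not at H
  refine no_univ Cardinal.mk_real.ge _ inj (0, 2) X fun Z => ?_
  obtain ⟨j, hj⟩ := H C(Z, ℝ) _ ⟨Z, ℝ, _, _, inferInstance, inferInstance, inferInstance,
    inferInstance, id, IsEmbedding.id⟩
  refine ⟨Y, _, inferInstance, e ∘ j ∘ g Z, ?_⟩
  rw [(he.comp hj).isInducing.nhds_eq_comap, comap_comap]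
  rfl

end Pool.Agent.Results.MP_a55298_gt.NoUniversal
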